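import Mathlib

set_option autoImplicit false

namespace Pool.Agent.ACG

/-- `H` is a normal subgroup stable under the operator group. -/
def OmNormal (Ω : Type*) {G : Type*} [Group G] [Group Ω] [MulDistribMulAction Ω G]
    (H : Subgroup G) : Prop :=
  H.Normal ∧ ∀ ω : Ω, ∀ h ∈ H, ω • h ∈ H

/-- normal generation -/
def Gen (Ω : Type*) {G : Type*} [Group G] [Group Ω] [MulDistribMulAction Ω G]
    {k : ℕ} (u : Fin k → G) : Prop :=
  ∀ H : Subgroup G, H.Normal → (∀ ω : Ω, ∀ h ∈ H, ω • h ∈ H) → (∀ i, u i ∈ H) → H = ⊤

/-- elementary moves -/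
def Move (Ω : Type*) {G : Type*} [Group G] [Group Ω] [MulDistribMulAction Ω G]
    {k : ℕ} (a b : Fin k → G) : Prop :=
  (∃ i j : Fin k, i ≠ j ∧
    (b = Function.update a i (a i * a j) ∨
     b = Function.update a i (a i * (a j)⁻¹) ∨
     b = Function.update a i (a j * a i) ∨
     b = Function.update a i ((a j)⁻¹ * a i))) ∨
  (∃ i : Fin k, b = Function.update a i (a i)⁻¹) ∨
  (∃ (i : Fin k) (g : G), b = Function.update a i (g⁻¹ * a i * g)) ∨
  (∃ (i : Fin k) (ω : Ω), b = Function.update a i (ω • a i))

/-- Andrews-Curtis equivalence (reflexive transitive closure of the moves) -/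
def AC (Ω : Type*) {G : Type*} [Group G] [Group Ω] [MulDistribMulAction Ω G]
    {k : ℕ} (a b : Fin k → G) : Prop :=
  Relation.ReflTransGen (Move Ω) a b

section basics

variable {Ω G : Type*} [Group G] [Group Ω] [MulDistribMulAction Ω G] {k : ℕ}

theorem AC.refl (a : Fin k → G) : AC Ω a a := Relation.ReflTransGen.refl

theorem AC.trans {a b c : Fin k → G} (h₁ : AC Ω a b) (h₂ : AC Ω b c) : AC Ω a c :=
  Relation.ReflTransGen.trans h₁ h₂

theorem Move.ac {a b : Fin k → G} (h : Move Ω a b) : AC Ω a b := Relation.ReflTransGen.single h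

theorem Move.symm {a b : Fin k → G} (h : Move Ω a b) : Move Ω b a := by
  rcases h with ⟨i, j, hij, h⟩ | ⟨i, h⟩ | ⟨i, g, h⟩ | ⟨i, ω, h⟩
  · left
    refine ⟨i, j, hij, ?_⟩
    rcases h with h | h | h | h
    · right; left; subst h; simp [Function.update_of_ne hij.symm]
    · left; subst h; simp [Function.update_of_ne hij.symm]
    · right; right; right; subst h; simp [Function.update_of_ne hij.symm]
    · right; right; left; subst h; simp [Function.update_of_ne hij.symm]
  · right; left
    exact ⟨i, by subst h; simp⟩
  · right; right; left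
    exact ⟨i, g⁻¹, by subst h; simp [mul_assoc]⟩
  · right; right; right
    exact ⟨i, ω⁻¹, by subst h; simp⟩

theorem AC.symm {a b : Fin k → G} (h : AC Ω a b) : AC Ω b a := by
  induction h with
  | refl => exact AC.refl _
  | tail _ hbc ih => exact AC.trans hbc.symm.ac ih

/-- a move keeps the entries inside any stable normal subgroup -/
theorem Move.mem {H : Subgroup G} (hn : H.Normal) (hs : ∀ ω : Ω, ∀ h ∈ H, ω • h ∈ H)
    {a b : Fin k → G} (h : Move Ω a b) (ha : ∀ i, a i ∈ H) : ∀ i, b i ∈ H := by
  intro l
  rcases h with ⟨i, j, hij, h⟩ | ⟨i, h⟩ | ⟨i, g, h⟩ | ⟨i, ω, h⟩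
  · rcases h with h | h | h | h <;> subst h <;> by_cases hl : l = i
    · subst hl; simpa using H.mul_mem (ha _) (ha _)
    · simpa [Function.update_of_ne hl] using ha l
    · subst hl; simpa using H.mul_mem (ha _) (H.inv_mem (ha _))
    · simpa [Function.update_of_ne hl] using ha l
    · subst hl; simpa using H.mul_mem (ha _) (ha _)
    · simpa [Function.update_of_ne hl] using ha l
    · subst hl; simpa using H.mul_mem (H.inv_mem (ha _)) (ha _)
    · simpa [Function.update_of_ne hl] using ha l
  · subst h; by_cases hl : l = i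
    · subst hl; simpa using ha _
    · simpa [Function.update_of_ne hl] using ha l
  · subst h; by_cases hl : l = i
    · subst hl; simpa using hn.conj_mem _ (ha l) g⁻¹
    · simpa [Function.update_of_ne hl] using ha l
  · subst h; by_cases hl : l = i
    · subst hl; simpa using hs ω _ (ha _)
    · simpa [Function.update_of_ne hl] using ha l

theorem AC.mem {H : Subgroup G} (hn : H.Normal) (hs : ∀ ω : Ω, ∀ h ∈ H, ω • h ∈ H)
    {a b : Fin k → G} (h : AC Ω a b) (ha : ∀ i, a i ∈ H) : ∀ i, b i ∈ H := by
  induction h with
  | refl => exact ha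
  | tail _ hbc ih => exact hbc.mem hn hs ih

theorem AC.gen {a b : Fin k → G} (h : AC Ω a b) (ha : Gen Ω a) : Gen Ω b := by
  intro H hn hs hb
  exact ha H hn hs (h.symm.mem hn hs hb)

/-- The elements `r` by which the `l`-th entry can always be multiplied on the right. -/
def mulSub (Ω : Type*) {G : Type*} [Group G] [Group Ω] [MulDistribMulAction Ω G]
    {k : ℕ} (U : Fin k → G) (l : Fin k) : Subgroup G where
  carrier := {r | ∀ x : G, AC Ω (Function.update U l x) (Function.update U l (x * r))}
  one_mem' := by intro x; simpa using AC.refl _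
  mul_mem' := by
    intro r s hr hs x
    have h1 := hr x
    have h2 := hs (x * r)
    rw [mul_assoc] at h2
    exact h1.trans h2
  inv_mem' := by
    intro r hr x
    have h1 := hr (x * r⁻¹)
    rw [inv_mul_cancel_right] at h1
    exact h1.symm

theorem mulSub_normal (U : Fin k → G) (l : Fin k) : (mulSub Ω U l).Normal := by
  constructor
  intro r hr g x
  have h0 : AC Ω (Function.update U l x) (Function.update U l (g⁻¹ * x * g)) := by
    apply Move.ac
    right; right; left
    exact ⟨l, g, by simp⟩
  have h1 := hr (g⁻¹ * x * g)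
  have h2 : AC Ω (Function.update U l (g⁻¹ * x * g * r)) (Function.update U l (x * (g * r * g⁻¹))) := by
    apply Move.ac
    right; right; left
    exact ⟨l, g⁻¹, by simp [mul_assoc]⟩
  exact (h0.trans h1).trans h2

theorem mulSub_smul (U : Fin k → G) (l : Fin k) :
    ∀ ω : Ω, ∀ r ∈ mulSub Ω U l, ω • r ∈ mulSub Ω U l := by
  intro ω r hr x
  have h0 : AC Ω (Function.update U l x) (Function.update U l (ω⁻¹ • x)) := by
    apply Move.ac
    right; right; right
    exact ⟨l, ω⁻¹, by simp⟩
  have h1 := hr (ω⁻¹ • x)
  have h2 : AC Ω (Function.update U l (ω⁻¹ • x * r)) (Function.update U l (x * (ω • r))) := by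
    apply Move.ac
    right; right; right
    exact ⟨l, ω, by simp⟩
  exact (h0.trans h1).trans h2

/-- first key lemma: an entry may be multiplied by any element of the stable normal closure of the others -/
theorem AC_update_mul (U : Fin k → G) (l : Fin k) (r : G)
    (h : ∀ H : Subgroup G, H.Normal → (∀ ω : Ω, ∀ h ∈ H, ω • h ∈ H) →
      (∀ j, j ≠ l → U j ∈ H) → r ∈ H) :
    AC Ω U (Function.update U l (U l * r)) := by
  have h1 : r ∈ mulSub Ω U l := by
    apply h _ (mulSub_normal U l) (mulSub_smul U l)
    intro j hj x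
    apply Move.ac
    left
    refine ⟨l, j, hj.symm, Or.inl ?_⟩
    simp [Function.update_of_ne hj]
  have h2 := h1 (U l)
  simpa using h2

/-- changing the entries one after another -/
theorem AC_of_between (U V : Fin k → G)
    (h : ∀ W : Fin k → G, (∀ i, W i = U i ∨ W i = V i) → ∀ l,
      ∀ H : Subgroup G, H.Normal → (∀ ω : Ω, ∀ h ∈ H, ω • h ∈ H) →
      (∀ j, j ≠ l → W j ∈ H) → (U l)⁻¹ * V l ∈ H) :
    AC Ω U V := by
  have key : ∀ S : Finset (Fin k), AC Ω U (fun i => if i ∈ S then V i else U i) := by
    intro S
    induction S using Finset.induction_on with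
    | empty => simpa using AC.refl U
    | insert a S ha ih =>
      refine ih.trans ?_
      set W : Fin k → G := (fun i => if i ∈ S then V i else U i) with hW
      have hWa : W a = U a := by simp [hW, ha]
      have hB : ∀ i, W i = U i ∨ W i = V i := by
        intro i
        by_cases hi : i ∈ S
        · right; simp [hW, hi]
        · left; simp [hW, hi]
      have h1 := AC_update_mul (Ω := Ω) W a ((U a)⁻¹ * V a) (h W hB a)
      have h2 : (fun i => if i ∈ insert a S then V i else U i) =
          Function.update W a (W a * ((U a)⁻¹ * V a)) := by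
        funext i
        by_cases hi : i = a
        · subst hi; simp [hWa]
        · rw [Function.update_of_ne hi]
          simp [hW, hi]
      rw [h2]
      exact h1
  have := key Finset.univ
  simpa using this

end basics

end Pool.Agent.ACG
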