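import Mathlib
import Pool.Agent.MP_a9e0e5_al.ACBasic

set_option autoImplicit false

namespace Pool.Agent.ACG

open scoped commutatorElement

section key

variable {Ω G : Type*} [Group G] [Group Ω] [MulDistribMulAction Ω G] {k : ℕ}

/-- stable normal closure of a single element -/
def ncl (Ω : Type*) {G : Type*} [Group G] [Group Ω] [MulDistribMulAction Ω G] (x : G) :
    Subgroup G :=
  sInf {H | OmNormal Ω H ∧ x ∈ H}

theorem mem_ncl_self (x : G) : x ∈ ncl Ω x := by
  simp only [ncl, Subgroup.mem_sInf, Set.mem_ofPred_eq]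
  intro H hH
  exact hH.2

theorem ncl_le {x : G} {H : Subgroup G} (hH : OmNormal Ω H) (hx : x ∈ H) : ncl Ω x ≤ H :=
  sInf_le ⟨hH, hx⟩

theorem ncl_omNormal (x : G) : OmNormal Ω (ncl Ω x) := by
  refine ⟨⟨?_⟩, ?_⟩
  · intro n hn g
    simp only [ncl, Subgroup.mem_sInf, Set.mem_ofPred_eq] at hn ⊢
    intro H hH
    exact hH.1.1.conj_mem _ (hn H hH) g
  · intro ω n hn
    simp only [ncl, Subgroup.mem_sInf, Set.mem_ofPred_eq] at hn ⊢
    intro H hH
    exact hH.1.2 ω _ (hn H hH)

/-- the centralizer of a stable normal subgroup is stable normal -/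
theorem centralizer_omNormal {H : Subgroup G} (hH : OmNormal Ω H) :
    OmNormal Ω (Subgroup.centralizer (H : Set G)) := by
  refine ⟨⟨?_⟩, ?_⟩
  · intro n hn g
    rw [Subgroup.mem_centralizer_iff] at hn ⊢
    intro h hh
    have h1 : g⁻¹ * h * g ∈ H := by simpa using hH.1.conj_mem _ hh g⁻¹
    have h2 := hn _ h1
    have h3 : g * (g⁻¹ * h * g * n) * g⁻¹ = g * (n * (g⁻¹ * h * g)) * g⁻¹ := by rw [h2]
    simpa [mul_assoc] using h3
  · intro ω n hn
    rw [Subgroup.mem_centralizer_iff] at hn ⊢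
    intro h hh
    have h1 : ω⁻¹ • h ∈ H := hH.2 _ _ hh
    have h2 := hn _ h1
    have h3 : ω • (ω⁻¹ • h * n) = ω • (n * ω⁻¹ • h) := by rw [h2]
    simpa [smul_mul'] using h3

theorem center_omNormal : OmNormal Ω (Subgroup.center G) := by
  refine ⟨inferInstance, ?_⟩
  intro ω n hn
  rw [Subgroup.mem_center_iff] at hn ⊢
  intro g
  have h2 := hn (ω⁻¹ • g)
  have h3 : ω • (ω⁻¹ • g * n) = ω • (n * ω⁻¹ • g) := by rw [h2]
  simpa [smul_mul'] using h3

/-- elements all of whose commutators lie in `H` -/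
def relCenter (H : Subgroup G) (_hn : H.Normal) : Subgroup G where
  carrier := {x | ∀ g : G, x * g * x⁻¹ * g⁻¹ ∈ H}
  one_mem' := by intro g; simp
  mul_mem' := by
    intro a b ha hb g
    have h1 := ha (b * g * b⁻¹)
    have h2 := hb g
    have : a * b * g * (a * b)⁻¹ * g⁻¹ =
        (a * (b * g * b⁻¹) * a⁻¹ * (b * g * b⁻¹)⁻¹) * (b * g * b⁻¹ * g⁻¹) := by group
    rw [this]
    exact H.mul_mem h1 h2
  inv_mem' := by
    intro a ha g
    have h1 := ha (a⁻¹ * g * a)
    have : a⁻¹ * g * a⁻¹⁻¹ * g⁻¹ = (a * (a⁻¹ * g * a) * a⁻¹ * (a⁻¹ * g * a)⁻¹)⁻¹ := by group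
    rw [this]
    exact H.inv_mem h1

theorem mem_relCenter {H : Subgroup G} (hn : H.Normal) {x : G} :
    x ∈ relCenter H hn ↔ ∀ g : G, x * g * x⁻¹ * g⁻¹ ∈ H := Iff.rfl

theorem relCenter_omNormal {H : Subgroup G} (hH : OmNormal Ω H) :
    OmNormal Ω (relCenter H hH.1) := by
  refine ⟨⟨?_⟩, ?_⟩
  · intro n hn g
    rw [mem_relCenter] at hn ⊢
    intro x
    have h1 := hn (g⁻¹ * x * g)
    have h2 := hH.1.conj_mem _ h1 g
    have : g * n * g⁻¹ * x * (g * n * g⁻¹)⁻¹ * x⁻¹ =
        g * (n * (g⁻¹ * x * g) * n⁻¹ * (g⁻¹ * x * g)⁻¹) * g⁻¹ := by group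
    rw [this]
    exact h2
  · intro ω n hn
    rw [mem_relCenter] at hn ⊢
    intro x
    have h1 := hn (ω⁻¹ • x)
    have h2 := hH.2 ω _ h1
    simpa [smul_mul'] using h2

theorem le_relCenter {H : Subgroup G} (hn : H.Normal) : H ≤ relCenter H hn := by
  intro x hx g
  have h1 : g * x⁻¹ * g⁻¹ ∈ H := hn.conj_mem _ (H.inv_mem hx) g
  have : x * g * x⁻¹ * g⁻¹ = x * (g * x⁻¹ * g⁻¹) := by group
  rw [this]
  exact H.mul_mem hx h1

theorem commutator_le_of_le_relCenter {H K : Subgroup G} (hn : H.Normal)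
    (h : K ≤ relCenter H hn) : ⁅K, (⊤ : Subgroup G)⁆ ≤ H := by
  rw [Subgroup.commutator_le]
  intro x hx g _
  have := h hx g
  simpa [commutatorElement_def] using this

theorem center_le_relCenter {H : Subgroup G} (hn : H.Normal) :
    Subgroup.center G ≤ relCenter H hn := by
  intro x hx g
  rw [Subgroup.mem_center_iff] at hx
  have := hx g
  have h2 : x * g * x⁻¹ * g⁻¹ = 1 := by rw [← this]; group
  rw [h2]; exact H.one_mem

theorem commutator_omNormal {H K : Subgroup G} (hH : OmNormal Ω H) (hK : OmNormal Ω K) :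
    OmNormal Ω ⁅H, K⁆ := by
  have := hH.1
  have := hK.1
  refine ⟨inferInstance, ?_⟩
  intro ω
  have h1 : ⁅H, K⁆ ≤ (⁅H, K⁆).comap (MulDistribMulAction.toMonoidHom G ω) := by
    rw [Subgroup.commutator_le]
    intro a ha b hb
    rw [Subgroup.mem_comap]
    have h2 : (MulDistribMulAction.toMonoidHom G ω) ⁅a, b⁆ = ⁅ω • a, ω • b⁆ := by
      simp [commutatorElement_def, smul_mul']
    rw [h2]
    exact Subgroup.commutator_mem_commutator (hH.2 ω a ha) (hK.2 ω b hb)
  intro x hx
  exact h1 hx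

theorem top_omNormal : OmNormal Ω (⊤ : Subgroup G) :=
  ⟨inferInstance, fun _ _ _ => Subgroup.mem_top _⟩

theorem inf_omNormal {H K : Subgroup G} (hH : OmNormal Ω H) (hK : OmNormal Ω K) :
    OmNormal Ω (H ⊓ K) := by
  have := hH.1
  have := hK.1
  exact ⟨inferInstance, fun ω h hh => ⟨hH.2 ω h hh.1, hK.2 ω h hh.2⟩⟩

/-- If the group is not abelian then some equivalent tuple has two entries whose commutator
closures intersect nontrivially. -/
theorem exists_pair (hk : 2 ≤ k) {U : Fin k → G} (hU : Gen Ω U)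
    (hna : commutator G ≠ ⊥) :
    ∃ U' : Fin k → G, AC Ω U U' ∧ ∃ i j : Fin k, i ≠ j ∧
      ⁅ncl Ω (U' i), (⊤ : Subgroup G)⁆ ⊓ ⁅ncl Ω (U' j), (⊤ : Subgroup G)⁆ ≠ ⊥ := by
  by_contra hcon
  push Not at hcon
  -- pairwise commuting for each equivalent tuple
  have hcomm : ∀ U' : Fin k → G, AC Ω U U' → ∀ i j : Fin k, i ≠ j →
      U' j ∈ Subgroup.centralizer (ncl Ω (U' i) : Set G) := by
    intro U' hU' i j hij
    rw [Subgroup.mem_centralizer_iff]
    intro x hx
    have h1 : ⁅x, U' j⁆ ∈ ⁅ncl Ω (U' i), (⊤ : Subgroup G)⁆ ⊓ ⁅ncl Ω (U' j), (⊤ : Subgroup G)⁆ := by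
      constructor
      · exact Subgroup.commutator_mem_commutator hx (Subgroup.mem_top _)
      · have := Subgroup.commutator_mem_commutator (mem_ncl_self (Ω := Ω) (U' j))
          (Subgroup.mem_top x)
        rw [← commutatorElement_inv]
        exact Subgroup.inv_mem _ this
    rw [hcon U' hU' i j hij, Subgroup.mem_bot, commutatorElement_eq_one_iff_mul_comm] at h1
    exact h1
  -- every entry is central
  have hcen : ∀ i : Fin k, ncl Ω (U i) ≤ Subgroup.center G := by
    intro i
    obtain ⟨j, hij⟩ : ∃ j : Fin k, i ≠ j := by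
      by_cases h0 : i = ⟨0, by omega⟩
      · exact ⟨⟨1, by omega⟩, by rw [h0]; simp [Fin.ext_iff]⟩
      · exact ⟨⟨0, by omega⟩, h0⟩
    have hC := centralizer_omNormal (Ω := Ω) (ncl_omNormal (Ω := Ω) (U i))
    have hall : ∀ l, U l ∈ Subgroup.centralizer (ncl Ω (U i) : Set G) := by
      intro l
      by_cases hl : i = l
      · -- use the move `U j ↦ U j * U i`
        subst hl
        have hm : AC Ω U (Function.update U j (U j * U i)) := by
          apply Move.ac
          left
          exact ⟨j, i, hij.symm, Or.inl rfl⟩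
        have h1 := hcomm _ hm i j hij
        rw [Function.update_self, Function.update_of_ne hij] at h1
        have h2 := hcomm U (AC.refl _) i j hij
        have h3 := (Subgroup.centralizer (ncl Ω (U i) : Set G)).mul_mem
          ((Subgroup.centralizer (ncl Ω (U i) : Set G)).inv_mem h2) h1
        simpa using h3
      · exact hcomm U (AC.refl _) i l hl
    have htop := hU _ hC.1 hC.2 hall
    intro x hx
    rw [Subgroup.mem_center_iff]
    intro g
    have hg : g ∈ Subgroup.centralizer (ncl Ω (U i) : Set G) := by rw [htop]; trivial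
    rw [Subgroup.mem_centralizer_iff] at hg
    exact (hg x hx).symm
  have hZ := center_omNormal (Ω := Ω) (G := G)
  have htop := hU _ hZ.1 hZ.2 (fun i => hcen i (mem_ncl_self _))
  apply hna
  rw [commutator_def, Subgroup.commutator_eq_bot_iff_le_centralizer]
  intro x _
  rw [Subgroup.mem_centralizer_iff]
  intro g _
  have hx : x ∈ Subgroup.center G := by rw [htop]; trivial
  rw [Subgroup.mem_center_iff] at hx
  exact hx g

/-- Goodness of a central subgroup. -/
theorem good_of_central {M : Subgroup G} (hcen : M ≤ Subgroup.center G)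
    {U : Fin k → G} {i j : Fin k} (hij : i ≠ j)
    (hi : M ≤ ⁅ncl Ω (U i), (⊤ : Subgroup G)⁆) (hj : M ≤ ⁅ncl Ω (U j), (⊤ : Subgroup G)⁆)
    {V : Fin k → G} (hV : ∀ l, (U l)⁻¹ * V l ∈ M) : AC Ω U V := by
  apply AC_of_between
  intro W hW l H hn hs hmem
  have key : ∀ a : Fin k, W a ∈ H → ⁅ncl Ω (U a), (⊤ : Subgroup G)⁆ ≤ H := by
    intro a ha
    apply commutator_le_of_le_relCenter hn
    apply ncl_le (relCenter_omNormal (Ω := Ω) ⟨hn, hs⟩)
    rcases hW a with h | h
    · rw [← h]; exact le_relCenter hn ha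
    · have h1 : W a ∈ relCenter H hn := le_relCenter hn ha
      have h2 : ((U a)⁻¹ * V a)⁻¹ ∈ relCenter H hn :=
        Subgroup.inv_mem _ (center_le_relCenter hn (hcen (hV a)))
      have h3 : U a = V a * ((U a)⁻¹ * V a)⁻¹ := by group
      rw [h3, ← h]
      exact Subgroup.mul_mem _ h1 (by rw [h]; exact h2)
  by_cases hil : i = l
  · exact key j (hmem j (by rw [← hil]; exact hij.symm)) (hj (hV l))
  · exact key i (hmem i hil) (hi (hV l))

/-- If `M` is a minimal stable normal subgroup, a stable normal subgroup containing an element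
that does not centralize `M` contains `M`. -/
theorem le_of_not_mem_centralizer {M : Subgroup G} (hM : OmNormal Ω M)
    (hmin : ∀ N : Subgroup G, OmNormal Ω N → N ≤ M → N ≠ ⊥ → N = M)
    {H : Subgroup G} (hH : OmNormal Ω H) {x : G} (hx : x ∈ H)
    (hxc : x ∉ Subgroup.centralizer (M : Set G)) : M ≤ H := by
  rw [Subgroup.mem_centralizer_iff] at hxc
  push Not at hxc
  obtain ⟨m, hm, hne⟩ := hxc
  have h1 : ⁅m, x⁆ ∈ M ⊓ H := by
    constructor
    · have : ⁅m, x⁆ = m * (x * m⁻¹ * x⁻¹) := by simp [commutatorElement_def, mul_assoc]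
      rw [this]
      exact M.mul_mem hm (hM.1.conj_mem _ (M.inv_mem hm) x)
    · have : ⁅m, x⁆ = (m * x * m⁻¹) * x⁻¹ := by simp [commutatorElement_def]
      rw [this]
      exact H.mul_mem (hH.1.conj_mem _ hx m) (H.inv_mem hx)
  have h2 : ⁅m, x⁆ ≠ 1 := by
    intro h
    rw [commutatorElement_eq_one_iff_mul_comm] at h
    exact hne h
  have h3 : M ⊓ H = M := by
    apply hmin _ (inf_omNormal hM hH) inf_le_left
    intro h
    rw [h, Subgroup.mem_bot] at h1
    exact h2 h1
  exact inf_eq_left.mp h3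

/-- noncentral minimal subgroup, first case -/
theorem good_noncentral_aux {M : Subgroup G} (hM : OmNormal Ω M)
    (hmin : ∀ N : Subgroup G, OmNormal Ω N → N ≤ M → N ≠ ⊥ → N = M)
    {U V : Fin k → G} (hV : ∀ l, (U l)⁻¹ * V l ∈ M)
    {i j : Fin k} (hij : i ≠ j)
    (hi : U i ∉ Subgroup.centralizer (M : Set G))
    (hj : V j ∉ Subgroup.centralizer (M : Set G)) : AC Ω U V := by
  have h1 : AC Ω U (Function.update U j (U j * ((U j)⁻¹ * V j))) := by
    apply AC_update_mul
    intro H hn hs hmem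
    exact le_of_not_mem_centralizer hM hmin ⟨hn, hs⟩ (hmem i hij) hi (hV j)
  refine h1.trans ?_
  have h2 : U j * ((U j)⁻¹ * V j) = V j := by group
  rw [h2]
  apply AC_of_between
  intro W hW l H hn hs hmem
  by_cases hl : j = l
  · subst hl
    simp
  · have h3 : W j = V j := by
      rcases hW j with h | h
      · simpa using h
      · exact h
    have h4 := hmem j hl
    rw [h3] at h4
    rw [Function.update_of_ne (Ne.symm hl)]
    exact le_of_not_mem_centralizer hM hmin ⟨hn, hs⟩ h4 hj (hV l)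

/-- noncentral minimal subgroup -/
theorem good_noncentral (hk : 2 ≤ k) {M : Subgroup G} (hM : OmNormal Ω M)
    (hmin : ∀ N : Subgroup G, OmNormal Ω N → N ≤ M → N ≠ ⊥ → N = M)
    (hnc : ¬ M ≤ Subgroup.center G)
    {U V : Fin k → G} (hU : Gen Ω U) (hV' : Gen Ω V)
    (hV : ∀ l, (U l)⁻¹ * V l ∈ M) : AC Ω U V := by
  have hC := centralizer_omNormal (Ω := Ω) hM
  have hCtop : Subgroup.centralizer (M : Set G) ≠ ⊤ := by
    intro h
    apply hnc
    intro m hm
    rw [Subgroup.mem_center_iff]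
    intro g
    have hg : g ∈ Subgroup.centralizer (M : Set G) := by rw [h]; trivial
    rw [Subgroup.mem_centralizer_iff] at hg
    exact (hg m hm).symm
  obtain ⟨i, hi⟩ : ∃ i, U i ∉ Subgroup.centralizer (M : Set G) := by
    by_contra h
    push Not at h
    exact hCtop (hU _ hC.1 hC.2 h)
  obtain ⟨j, hj⟩ : ∃ j, V j ∉ Subgroup.centralizer (M : Set G) := by
    by_contra h
    push Not at h
    exact hCtop (hV' _ hC.1 hC.2 h)
  by_cases hij : i = j
  · subst hij
    obtain ⟨l, hil⟩ : ∃ l : Fin k, i ≠ l := by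
      by_cases h0 : i = ⟨0, by omega⟩
      · exact ⟨⟨1, by omega⟩, by rw [h0]; simp [Fin.ext_iff]⟩
      · exact ⟨⟨0, by omega⟩, h0⟩
    by_cases hl : U l ∈ Subgroup.centralizer (M : Set G)
    · -- pass to `U l * U i` and `V l * V i`
      have h1 : AC Ω U (Function.update U l (U l * U i)) := by
        apply Move.ac
        left
        exact ⟨l, i, hil.symm, Or.inl rfl⟩
      have h2 : AC Ω V (Function.update V l (V l * V i)) := by
        apply Move.ac
        left
        exact ⟨l, i, hil.symm, Or.inl rfl⟩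
      have h3 : AC Ω (Function.update U l (U l * U i)) (Function.update V l (V l * V i)) := by
        apply good_noncentral_aux hM hmin (i := l) (j := i) _ hil.symm
        · rw [Function.update_self]
          intro h
          apply hi
          have := (Subgroup.centralizer (M : Set G)).mul_mem
            ((Subgroup.centralizer (M : Set G)).inv_mem hl) h
          simpa using this
        · rw [Function.update_of_ne hil]
          exact hj
        · intro t
          by_cases ht : t = l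
          · subst ht
            rw [Function.update_self, Function.update_self]
            have e1 : (U t * U i)⁻¹ * (V t * V i) =
                ((U i)⁻¹ * ((U t)⁻¹ * V t) * (U i)⁻¹⁻¹) * ((U i)⁻¹ * V i) := by group
            rw [e1]
            exact M.mul_mem (hM.1.conj_mem _ (hV t) _) (hV i)
          · rw [Function.update_of_ne ht, Function.update_of_ne ht]
            exact hV t
      exact (h1.trans h3).trans h2.symm
    · -- `U l` does not centralize
      exact good_noncentral_aux hM hmin hV hil.symm hl hj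
  · exact good_noncentral_aux hM hmin hV hij hi hj

/-- For every generating tuple of a nonabelian finite group there is a nontrivial stable normal
subgroup of the commutator subgroup modulo which nothing is lost. -/
theorem exists_good [Finite G] (hk : 2 ≤ k) {U : Fin k → G} (hU : Gen Ω U)
    (hna : commutator G ≠ ⊥) :
    ∃ U' : Fin k → G, AC Ω U U' ∧ ∃ M : Subgroup G, OmNormal Ω M ∧ M ≤ commutator G ∧ M ≠ ⊥ ∧
      ∀ V : Fin k → G, Gen Ω V → (∀ l, (U' l)⁻¹ * V l ∈ M) → AC Ω U' V := by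
  obtain ⟨U', hUU', i, j, hij, hne⟩ := exists_pair hk hU hna
  have hK : OmNormal Ω (⁅ncl Ω (U' i), (⊤ : Subgroup G)⁆ ⊓ ⁅ncl Ω (U' j), (⊤ : Subgroup G)⁆) :=
    inf_omNormal (commutator_omNormal (ncl_omNormal _) top_omNormal)
      (commutator_omNormal (ncl_omNormal _) top_omNormal)
  set K := ⁅ncl Ω (U' i), (⊤ : Subgroup G)⁆ ⊓ ⁅ncl Ω (U' j), (⊤ : Subgroup G)⁆ with hKdef
  -- a minimal nontrivial stable normal subgroup inside `K`
  obtain ⟨M, hMmem, hMmin⟩ : ∃ M ∈ {N : Subgroup G | OmNormal Ω N ∧ N ≤ K ∧ N ≠ ⊥},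
      ∀ N ∈ {N : Subgroup G | OmNormal Ω N ∧ N ≤ K ∧ N ≠ ⊥}, ¬ N < M := by
    exact WellFounded.has_min (wellFounded_lt) _ ⟨K, hK, le_rfl, hne⟩
  obtain ⟨hMO, hMK, hM0⟩ := hMmem
  have hmin : ∀ N : Subgroup G, OmNormal Ω N → N ≤ M → N ≠ ⊥ → N = M := by
    intro N hN hle hN0
    by_contra hne'
    exact hMmin N ⟨hN, hle.trans hMK, hN0⟩ (lt_of_le_of_ne hle hne')
  refine ⟨U', hUU', M, hMO, ?_, hM0, ?_⟩
  · refine hMK.trans (inf_le_left.trans ?_)
    rw [commutator_def]
    exact Subgroup.commutator_mono le_top le_rfl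
  · intro V hV hVM
    by_cases hc : M ≤ Subgroup.center G
    · exact good_of_central hc hij (hMK.trans inf_le_left) (hMK.trans inf_le_right) hVM
    · exact good_noncentral hk hMO hmin hc (hUU'.gen hU) hV hVM

end key

end Pool.Agent.ACG
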