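import Mathlib
import Pool.Agent.MP_a9e0e5_al.ACBasic
import Pool.Agent.MP_a9e0e5_al.ACKey

set_option autoImplicit false

namespace Pool.Agent.ACG

open scoped commutatorElement

section quot

variable {Ω G : Type*} [Group G] [Group Ω] [MulDistribMulAction Ω G] {k : ℕ}

/-- the induced action on the quotient by a stable normal subgroup -/
@[reducible]
def quotAction (M : Subgroup G) [M.Normal] (hM : ∀ ω : Ω, ∀ h ∈ M, ω • h ∈ M) :
    MulDistribMulAction Ω (G ⧸ M) where
  smul ω := QuotientGroup.map M M (MulDistribMulAction.toMonoidHom G ω) (fun h hh => hM ω h hh)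
  one_smul := by
    intro x
    induction x using QuotientGroup.induction_on with
    | H z =>
      change ((((1 : Ω) • z : G)) : G ⧸ M) = _
      rw [one_smul]
  mul_smul := by
    intro a b x
    induction x using QuotientGroup.induction_on with
    | H z =>
      change (((a * b) • z : G) : G ⧸ M) = ((a • b • z : G) : G ⧸ M)
      rw [mul_smul]
  smul_mul := by
    intro a x y
    exact map_mul (QuotientGroup.map M M (MulDistribMulAction.toMonoidHom G a) _) x y
  smul_one := by
    intro a
    exact map_one (QuotientGroup.map M M (MulDistribMulAction.toMonoidHom G a) _)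

variable {H : Type*} [Group H] [MulDistribMulAction Ω H]

theorem comp_update (f : G →* H) (a : Fin k → G) (i : Fin k) (x : G) :
    (fun l => f (Function.update a i x l)) = Function.update (fun l => f (a l)) i (f x) := by
  funext l
  by_cases hl : l = i
  · subst hl; simp
  · simp [Function.update_of_ne hl]

theorem Move.map (f : G →* H) (hf : ∀ (ω : Ω) (g : G), f (ω • g) = ω • f g)
    {a b : Fin k → G} (h : Move Ω a b) : Move Ω (fun l => f (a l)) (fun l => f (b l)) := by
  rcases h with ⟨i, j, hij, h⟩ | ⟨i, h⟩ | ⟨i, g, h⟩ | ⟨i, ω, h⟩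
  · left
    refine ⟨i, j, hij, ?_⟩
    rcases h with h | h | h | h <;> subst h
    · left; rw [comp_update, map_mul]
    · right; left; rw [comp_update, map_mul, map_inv]
    · right; right; left; rw [comp_update, map_mul]
    · right; right; right; rw [comp_update, map_mul, map_inv]
  · right; left
    exact ⟨i, by subst h; rw [comp_update, map_inv]⟩
  · right; right; left
    exact ⟨i, f g, by subst h; rw [comp_update, map_mul, map_mul, map_inv]⟩
  · right; right; right
    exact ⟨i, ω, by subst h; rw [comp_update, hf]⟩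

theorem AC.map (f : G →* H) (hf : ∀ (ω : Ω) (g : G), f (ω • g) = ω • f g)
    {a b : Fin k → G} (h : AC Ω a b) : AC Ω (fun l => f (a l)) (fun l => f (b l)) := by
  induction h with
  | refl => exact AC.refl _
  | tail _ hbc ih => exact ih.trans (hbc.map f hf).ac

theorem Move.lift (f : G →* H) (hf : ∀ (ω : Ω) (g : G), f (ω • g) = ω • f g)
    (hsurj : Function.Surjective f)
    {a : Fin k → G} {b : Fin k → H} (h : Move Ω (fun l => f (a l)) b) :
    ∃ b' : Fin k → G, Move Ω a b' ∧ (fun l => f (b' l)) = b := by
  rcases h with ⟨i, j, hij, h⟩ | ⟨i, h⟩ | ⟨i, g, h⟩ | ⟨i, ω, h⟩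
  · rcases h with h | h | h | h
    · exact ⟨_, Or.inl ⟨i, j, hij, Or.inl rfl⟩, by rw [h, comp_update, map_mul]⟩
    · exact ⟨_, Or.inl ⟨i, j, hij, Or.inr (Or.inl rfl)⟩, by rw [h, comp_update, map_mul, map_inv]⟩
    · exact ⟨_, Or.inl ⟨i, j, hij, Or.inr (Or.inr (Or.inl rfl))⟩, by
        rw [h, comp_update, map_mul]⟩
    · exact ⟨_, Or.inl ⟨i, j, hij, Or.inr (Or.inr (Or.inr rfl))⟩, by
        rw [h, comp_update, map_mul, map_inv]⟩
  · exact ⟨_, Or.inr (Or.inl ⟨i, rfl⟩), by rw [h, comp_update, map_inv]⟩
  · obtain ⟨g', rfl⟩ := hsurj g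
    exact ⟨_, Or.inr (Or.inr (Or.inl ⟨i, g', rfl⟩)), by
      rw [h, comp_update, map_mul, map_mul, map_inv]⟩
  · exact ⟨_, Or.inr (Or.inr (Or.inr ⟨i, ω, rfl⟩)), by rw [h, comp_update, hf]⟩

theorem AC.lift (f : G →* H) (hf : ∀ (ω : Ω) (g : G), f (ω • g) = ω • f g)
    (hsurj : Function.Surjective f)
    {a : Fin k → G} {b : Fin k → H} (h : AC Ω (fun l => f (a l)) b) :
    ∃ b' : Fin k → G, AC Ω a b' ∧ (fun l => f (b' l)) = b := by
  unfold AC at h
  induction h with
  | refl => exact ⟨a, AC.refl _, rfl⟩
  | tail _ hbc ih =>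
    obtain ⟨b', h1, h2⟩ := ih
    rw [← h2] at hbc
    obtain ⟨c', h3, h4⟩ := hbc.lift f hf hsurj
    exact ⟨c', h1.trans h3.ac, h4⟩

theorem Gen.map (f : G →* H) (hf : ∀ (ω : Ω) (g : G), f (ω • g) = ω • f g)
    (hsurj : Function.Surjective f)
    {a : Fin k → G} (h : Gen Ω a) : Gen Ω (fun l => f (a l)) := by
  intro K hn hs hmem
  have h1 : K.comap f = ⊤ := by
    apply h _ (hn.comap f)
    · intro ω x hx
      rw [Subgroup.mem_comap] at hx ⊢
      rw [hf]
      exact hs ω _ hx
    · exact hmem
  rw [eq_top_iff]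
  intro y _
  obtain ⟨x, rfl⟩ := hsurj y
  have : x ∈ K.comap f := by rw [h1]; trivial
  exact this

end quot

/-- Main theorem: tuples that agree modulo the commutator subgroup are equivalent. -/
theorem AC_of_commutator (Ω : Type) [Group Ω] (k : ℕ) (hk : 2 ≤ k) :
    ∀ (n : ℕ) (G : Type) [Group G] [Finite G] [MulDistribMulAction Ω G],
      Nat.card G = n → ∀ U V : Fin k → G, Gen Ω U → Gen Ω V →
        (∀ l, (U l)⁻¹ * V l ∈ commutator G) → AC Ω U V := by
  intro n
  induction n using Nat.strong_induction_on with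
  | _ n ih =>
    intro G _ _ _ hcard U V hU hV hUV
    by_cases hna : commutator G = ⊥
    · have : U = V := by
        funext l
        have h1 := hUV l
        rw [hna, Subgroup.mem_bot, inv_mul_eq_one] at h1
        exact h1
      rw [this]
      exact AC.refl _
    · obtain ⟨U', hUU', M, hMO, hMle, hM0, hgood⟩ := exists_good hk hU hna
      haveI : M.Normal := hMO.1
      letI : MulDistribMulAction Ω (G ⧸ M) := quotAction M hMO.2
      have hf : ∀ (ω : Ω) (g : G), (QuotientGroup.mk' M) (ω • g) = ω • (QuotientGroup.mk' M) g := by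
        intro ω g
        rfl
      have hsurj : Function.Surjective (QuotientGroup.mk' M) := QuotientGroup.mk'_surjective M
      have hlt : Nat.card (G ⧸ M) < n := by
        rw [← hcard, Subgroup.card_eq_card_quotient_mul_card_subgroup M]
        have h1 : 1 < Nat.card M := (Subgroup.one_lt_card_iff_ne_bot M).mpr hM0
        have h2 : 0 < Nat.card (G ⧸ M) := Nat.card_pos
        nlinarith
      have hcomm : ∀ x ∈ commutator G, (QuotientGroup.mk' M) x ∈ commutator (G ⧸ M) := by
        intro x hx
        have h1 : (commutator G).map (QuotientGroup.mk' M) ≤ commutator (G ⧸ M) := by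
          rw [commutator_def, commutator_def, Subgroup.map_commutator]
          exact Subgroup.commutator_mono le_top le_top
        exact h1 (Subgroup.mem_map_of_mem _ hx)
      -- images are equivalent in the quotient
      have h1 : AC Ω (fun l => (QuotientGroup.mk' M) (V l)) (fun l => (QuotientGroup.mk' M) (U l)) := by
        refine (ih _ hlt (G ⧸ M) rfl _ _ (hU.map _ hf hsurj) (hV.map _ hf hsurj) ?_).symm
        intro l
        rw [← map_inv, ← map_mul]
        exact hcomm _ (hUV l)
      have h2 := h1.trans (hUU'.map _ hf)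
      obtain ⟨V', hVV', hV'⟩ := h2.lift _ hf hsurj
      have h3 : AC Ω U' V' := by
        apply hgood V' (hVV'.gen hV)
        intro l
        have h4 := congrFun hV' l
        exact QuotientGroup.eq.mp h4.symm
      exact (hUU'.trans h3).trans hVV'.symm

end Pool.Agent.ACG
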